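import Pool.Agent.Helper12.TR.Diff

/-!
# Differences or longer sums, for the traces of `C*(ℤ² ⋉ ℤ[1/6])`

Let `G` be the group generated by `x ↦ 2 x`, `x ↦ 3 x`, `x ↦ x + 1` on `ℚ`, a copy of
`ℤ² ⋉ ℤ[1/6]`.  The tracial states of `C*(G)` are the normalised positive definite class functions
`φ` on `G`.  If an extreme tracial state `φ` which is neither regular nor conditionally
finite-dimensional is reproduced by the multiplications by almost all the differences of a large finite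
family of integers, then it is not reproduced by the multiplications by almost all the longer signed
sums of the family.

The theorem for the measures on the circle on which this rests is due to helper21
(`Pool.Agent.Results.MP_96e181_an.DifferencesOrSums`).
-/

set_option autoImplicit false

open MeasureTheory Filter Topology
open scoped ComplexOrder

namespace Pool.Agent.Results.MP_81910f_an.DifferencesOrSums

open Pool.Agent.Results.MP_96e181_an.DifferencesOrSums (part_one)
open Pool.Agent.TH654.FC (data_of)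
open Pool.Agent.TH463.UQ (finite_or_atomless)

/-- A tracial state of the group algebra of `G`: a normalised positive definite class function. -/
def Trace {G : Subgroup (Equiv.Perm ℚ)} (ψ : G → ℂ) : Prop :=
  ψ 1 = 1 ∧ (∀ g h : G, ψ (h * g * h⁻¹) = ψ g) ∧
    ∀ (s : Finset G) (c : G → ℂ), 0 ≤ ∑ i ∈ s, ∑ j ∈ s, star (c j) * c i * ψ (j⁻¹ * i)

/-- The regular trace. -/
def Regular {G : Subgroup (Equiv.Perm ℚ)} (φ : G → ℂ) : Prop :=
  φ = Set.indicator ({1} : Set G) (fun _ => (1 : ℂ))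

/-- Conditionally finite-dimensional: finite-dimensional in restriction to the translations. -/
def CondFinite {G : Subgroup (Equiv.Perm ℚ)} (φ : G → ℂ) : Prop :=
  FiniteDimensional ℂ (Submodule.span ℂ {f : G → ℂ | ∃ a : G,
    (∃ r : ℚ, ∀ x : ℚ, (a : Equiv.Perm ℚ) x = x + r) ∧ f = fun x => φ (a * x)})

/-- `ψ` reproduces `φ` at the multiplier `m`: `ψ (g ^ m) = φ g` for all translations `g`. -/
def Repro {G : Subgroup (Equiv.Perm ℚ)} (ψ φ : G → ℂ) (m : ℤ) : Prop :=
  ∀ g : G, (∃ r : ℚ, ∀ x : ℚ, (g : Equiv.Perm ℚ) x = x + r) → ψ (g ^ m) = φ g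

/-- **Differences or longer sums, for traces.** Let `G` be the group generated by `x ↦ 2 x`,
`x ↦ 3 x`, `x ↦ x + 1` on `ℚ`, and `φ` an extreme tracial state of its group algebra.

Let `φ` be neither regular nor conditionally finite-dimensional, `s ≥ 3` and `θ > 0`. Then
there is `δ > 0` such that for every tracial state `ψ`, all `r ≥ 1 / δ` and all integers
`a_1, ..., a_r`: if `ψ` reproduces `φ` at the multipliers `a_i - a_j` for all but at most `δ r ^ 2` of
the pairs `j < i`, then, for every choice of signs, it does so at `± a_(i_1) ± ... ± a_(i_s)` for at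
most `θ r ^ s` of the `(i_1, ..., i_s)`. -/
theorem result (s2 s3 t : Equiv.Perm ℚ) (hs2 : ∀ x : ℚ, s2 x = 2 * x) (hs3 : ∀ x : ℚ, s3 x = 3 * x)
    (ht : ∀ x : ℚ, t x = x + 1) (G : Subgroup (Equiv.Perm ℚ)) (hG : G = Subgroup.closure {s2, s3, t})
    (φ : G → ℂ) (hφ : φ ∈ Set.extremePoints ℝ {ψ : G → ℂ | Trace ψ}) :
    ¬ Regular φ → ¬ CondFinite φ → ∀ (s : ℕ) (θ : ℝ), 3 ≤ s → 0 < θ → ∃ δ : ℝ, 0 < δ ∧
      ∀ ψ : G → ℂ, Trace ψ → ∀ (r : ℕ) (a : Fin r → ℤ), 1 ≤ δ * r →
      ({q : Fin r × Fin r | q.2 < q.1 ∧ ¬ Repro ψ φ (a q.1 - a q.2)}.ncard : ℝ) ≤ δ * r ^ 2 →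
      ∀ e : Fin s → ℤ, (∀ l, e l = 1 ∨ e l = -1) →
      ({k : Fin s → Fin r | Repro ψ φ (∑ l, e l * a (k l))}.ncard : ℝ) ≤ θ * r ^ s := by
  classical
  obtain ⟨hφ1, hcl, hpd⟩ := hφ.1
  obtain ⟨τ, S6, μ, D⟩ := data_of hs2 hs3 ht hG hφ1 hcl hpd
  have hprob := D.prob
  have hat : ¬ CondFinite φ → ∀ x, μ {x} = 0 := fun h => (finite_or_atomless D hφ).resolve_left h
  intro hreg hfin s θ hs hθ
  obtain ⟨δ, hδ, H⟩ := part_one μ (hat hfin) (Helper12.TR.not_volume D hreg) hs hθ
  refine ⟨δ, hδ, ?_⟩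
  intro ψ hψ r a hr hB e he
  obtain ⟨τ', S6', μ', D'⟩ := data_of hs2 hs3 ht hG hψ.1 hψ.2.1 hψ.2.2
  have h1 := H μ' D'.prob r a hr (le_trans ?_ hB) e he
  · refine le_trans (Nat.cast_le.2 (Set.ncard_le_ncard ?_ (Set.toFinite _))) h1
    intro k hk
    exact Helper12.TR.map_of_rep D D' hk
  · refine Nat.cast_le.2 (Set.ncard_le_ncard ?_ (Set.toFinite _))
    intro q hq
    exact ⟨hq.1, fun hrep => hq.2 (Helper12.TR.map_of_rep D D' hrep)⟩

end Pool.Agent.Results.MP_81910f_an.DifferencesOrSums
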