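import Pool.Agent.Helper85.UV.TraceSieve

/-!
# Polynomials at tuples of primes as multipliers, for the extreme traces of `C*(ℤ² ⋉ ℤ[1/6])`

Let `G` be the group generated by `x ↦ 2 x`, `x ↦ 3 x`, `x ↦ x + 1` on `ℚ`, a copy of
`ℤ² ⋉ ℤ[1/6]`.  The tracial states of `C*(G)` are the normalised positive definite class functions
`φ` on `G`.  `Pool.Agent.Helper85.UV.TraceUniversal C` says for a set `C` of integer points that for
every extreme tracial state `φ`

* `φ` is conditionally finite-dimensional, or for every non-constant integer polynomial `F` in `n`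
  variables, every translation `g ≠ 1` in `G` and all `x, y ∈ G` the values `φ (x * g ^ F(c) * y)`
  tend to zero as `c → ∞` in `C` (the unitaries of the `g ^ F(c)` tend weakly to zero in the GNS
  representation of `φ`);
* `φ` is the regular trace or conditionally finite-dimensional if for one non-constant `F` and
  infinitely many `c ∈ C` one has `φ (g ^ F(c)) = φ g` for all translations `g ∈ G`.
-/

set_option autoImplicit false

open Finset

namespace Pool.Agent.Results.MP_81910f_an.PolynomialsAtPrimes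

/-- **Universal sets of tuples of primes.**  (1) Let `P` be a set of natural numbers with an upper
bound of Brun–Titchmarsh type: for all `b ≤ N` every residue class modulo `b` contains at most
`K (1 + log b) ^ e G(N) / b` elements of `P` below `N`, where `G ≥ 0` is a function with
`G(M) ≤ L_A G(N)` for `M ≤ A N`, and `G(2) + G(4) + ... + G(2 ^ (i + 1)) ≤ L G(N)` for `2 ^ i ≤ N`
(for `G(N) = N` every `P` is allowed, for the primes `G(N) = N / log N`, for the twin primes
`G(N) = N / log² N`).  Then for every `n` and `η > 0` there is one set `C` of `n`-tuples of elements of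
`P`, missing at most `η G(N) ^ n` of the tuples with entries below `N`, for every `N`, which is
universal for the extreme tracial states.  (2) In particular, for every `n` and `η > 0` there is a
universal set of `n`-tuples of primes which misses at most the proportion `η` of the `n`-tuples of
primes below `N`, for every `N`. -/
theorem result :
    (∀ (n : ℕ) (P : Set ℕ) (G : ℕ → ℝ) (K : ℝ) (e : ℕ), (∀ N, 0 ≤ G N) →
      (∀ A : ℕ, ∃ L : ℝ, 0 ≤ L ∧ ∀ N M : ℕ, 1 ≤ N → M ≤ A * N → G M ≤ L * G N) →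
      (∃ L : ℝ, 0 ≤ L ∧ ∀ N : ℕ, 1 ≤ N →
        ∑ i ∈ range (Nat.log 2 N + 1), G (2 ^ (i + 1)) ≤ L * G N) →
      0 ≤ K →
      (∀ N b r : ℕ, 1 ≤ b → b ≤ N →
        (Nat.card {h : ℕ | h < N ∧ h ∈ P ∧ h % b = r} : ℝ) ≤
          K * (1 + Real.log b) ^ e * G N / b) →
      ∀ η : ℝ, 0 < η → ∃ C : Set (Fin n → ℕ), (∀ c ∈ C, ∀ i, c i ∈ P) ∧
        (∀ N : ℕ, (Nat.card {c : Fin n → ℕ | (∀ i, c i < N ∧ c i ∈ P) ∧ c ∉ C} : ℝ) ≤
          η * G N ^ n) ∧
        Pool.Agent.Helper85.UV.TraceUniversal C) ∧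
    (∀ (n : ℕ) (η : ℝ), 0 < η → ∃ C : Set (Fin n → ℕ), (∀ c ∈ C, ∀ i, (c i).Prime) ∧
      (∀ N : ℕ, (Nat.card {c : Fin n → ℕ | (∀ i, c i < N ∧ (c i).Prime) ∧ c ∉ C} : ℝ) ≤
        η * (Nat.card {q : ℕ | q < N ∧ q.Prime} : ℝ) ^ n) ∧
      Pool.Agent.Helper85.UV.TraceUniversal C) := by
  refine ⟨fun n P G K e h1 h2 h3 hK hP η hη => ?_, fun n η hη => ?_⟩
  · obtain ⟨C, h4, h5, h6⟩ := Pool.Agent.Helper85.UV.sieve_universal n ⟨h1, h2, h3⟩ hK hP hη
    exact ⟨C, h4, h5, Pool.Agent.Helper85.UV.trace_of_universal h6⟩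
  · obtain ⟨C, h4, h5, h6⟩ := Pool.Agent.Helper85.UV.primes_universal n hη
    exact ⟨C, h4, h5, Pool.Agent.Helper85.UV.trace_of_universal h6⟩

end Pool.Agent.Results.MP_81910f_an.PolynomialsAtPrimes
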