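import Pool.Agent.Helper12.TR.Rigid

/-!
# Powers of almost every real number as multipliers, for the traces of `C*(ℤ² ⋉ ℤ[1/6])`

Let `G` be the group generated by `x ↦ 2 x`, `x ↦ 3 x`, `x ↦ x + 1` on `ℚ`, a copy of
`ℤ² ⋉ ℤ[1/6]`.  The tracial states of `C*(G)` are the normalised positive definite class functions
`φ` on `G`.  The dichotomy of the problem (an extreme `φ` is regular or conditionally
finite-dimensional) holds for the `φ` with one more symmetry: for every infinite set `M` of exponents,
however sparse, and almost every real number `α > 1` it is enough that `φ (g ^ ⌊α ^ n⌋) = φ g` for all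
translations `g` and all `n ∈ M`.

`Pool.Agent.Helper12.TR.Rigid c M` is this statement for the multipliers `c n`, `n ∈ M`.
`Pool.Agent.Helper12.TR.TraceUniversal c T` says for a sequence `c` and a set `T` of indices that for
every extreme tracial state `φ`

* `φ` is conditionally finite-dimensional, or for every translation `g ≠ 1` in `G` and all
  `x, y ∈ G` the values `φ (x * g ^ c(n) * y)` tend to zero as `n → ∞` in `T` (the unitaries of the
  `g ^ c(n)` tend weakly to zero in the GNS representation of `φ`);
* `φ` is the regular trace or conditionally finite-dimensional if for infinitely many `n ∈ T` one has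
  `φ (g ^ c(n)) = φ g` for all translations `g ∈ G`.

The theorem for the measures on the circle on which this rests is due to helper99
(`Pool.Agent.Results.MP_96e181_an.AlmostEveryBase`).
-/

set_option autoImplicit false

open MeasureTheory Filter Topology

namespace Pool.Agent.Results.MP_81910f_an.PowersOfRealNumbers

open Pool.Agent.Helper12.TR (TraceUniversal Rigid)

/-- `T` has relative upper density at least `1 - ε` in `M`. -/
def UpperDense (M T : Set ℕ) (ε : ℝ) : Prop :=
  ∀ N₀ : ℕ, ∃ N : ℕ, N₀ ≤ N ∧ (1 - ε) * (Nat.card {n : ℕ | n < N ∧ n ∈ M} : ℝ) ≤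
    (Nat.card {n : ℕ | n < N ∧ n ∈ T} : ℝ)

/-- **Powers of almost every real number, for traces.** Let `M` be any infinite set of exponents. For
almost every real `α > 1` the multipliers `⌊α ^ n⌋`, `n ∈ M`, are rigid, and for every `ε > 0` they are
universal along a subset of `M` of relative upper density at least `1 - ε`. -/
theorem result (M : Set ℕ) (hM : M.Infinite) :
    ∀ᵐ α : ℝ, 1 < α → Rigid (fun n => ⌊α ^ n⌋₊) M ∧
      ∀ ε : ℝ, 0 < ε → ∃ T : Set ℕ, T ⊆ M ∧ UpperDense M T ε ∧
        TraceUniversal (fun n => ⌊α ^ n⌋₊) T := by
  filter_upwards [Helper99.AE.powers hM] with α hα h1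
  exact Helper12.TR.upper hM (hα h1)

end Pool.Agent.Results.MP_81910f_an.PowersOfRealNumbers
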