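import Pool.Agent.Helper12.TR.Rigid

/-!
# Random sets of primes as multipliers, for the traces of `C*(ℤ² ⋉ ℤ[1/6])`

Let `G` be the group generated by `x ↦ 2 x`, `x ↦ 3 x`, `x ↦ x + 1` on `ℚ`, a copy of
`ℤ² ⋉ ℤ[1/6]`.  The tracial states of `C*(G)` are the normalised positive definite class functions
`φ` on `G`.  The dichotomy of the problem (an extreme `φ` is regular or conditionally
finite-dimensional) holds for the `φ` with one more symmetry: for a random set `S` of primes which
contains each prime `ℓ` with probability `1 / ℓ`, pairwise independently (so that `S` has only about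
`log log N` elements below `N`), it is enough that `φ (g ^ c) = φ g` for all translations `g` and all
`c ∈ S`, almost surely.

`Pool.Agent.Helper12.TR.Rigid c M` is this statement for the multipliers `c n`, `n ∈ M`.
`Pool.Agent.Helper12.TR.TraceUniversal c T` says for a sequence `c` and a set `T` of indices that for
every extreme tracial state `φ`

* `φ` is conditionally finite-dimensional, or for every translation `g ≠ 1` in `G` and all
  `x, y ∈ G` the values `φ (x * g ^ c(n) * y)` tend to zero as `n → ∞` in `T` (the unitaries of the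
  `g ^ c(n)` tend weakly to zero in the GNS representation of `φ`);
* `φ` is the regular trace or conditionally finite-dimensional if for infinitely many `n ∈ T` one has
  `φ (g ^ c(n)) = φ g` for all translations `g ∈ G`.

The theorem for the measures on the circle on which this rests is due to helper99
(`Pool.Agent.Results.MP_e27144_an.RandomPrimes`).
-/

set_option autoImplicit false

open MeasureTheory Filter Topology

namespace Pool.Agent.Results.MP_81910f_an.RandomPrimes

open Pool.Agent.Helper12.TR (TraceUniversal Rigid)

/-- `T` has relative lower density at least `1 - ε` in `S`. -/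
def LowerDense (S T : Set ℕ) (ε : ℝ) : Prop :=
  ∀ᶠ N : ℕ in atTop, (1 - ε) * (Nat.card {n : ℕ | n < N ∧ n ∈ S} : ℝ) ≤
    (Nat.card {n : ℕ | n < N ∧ n ∈ T} : ℝ)

/-- **Random sets of primes, for traces.** Let `B` be the set of primes or the set of all natural
numbers, and let `S` be a random subset of `B` such that the events `{n ∈ S}`, `n ∈ B`, are pairwise
independent, with probabilities `p n` which are nonincreasing in `n` and have a divergent sum over
`B`. Almost surely the elements of `S` are rigid, and for every `ε > 0` they are universal along a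
subset of `S` of relative lower density at least `1 - ε`. -/
theorem result (B : Set ℕ) (hB : B = {ℓ : ℕ | ℓ.Prime} ∨ B = Set.univ)
    (Ω : Type) (_ : MeasurableSpace Ω) (P : Measure Ω) (_ : IsProbabilityMeasure P)
    (S : Ω → Set ℕ) (p : ℕ → ℝ) (hS : ∀ ω, S ω ⊆ B) (hm : ∀ n, MeasurableSet {ω | n ∈ S ω})
    (hind : ∀ m ∈ B, ∀ n ∈ B, m ≠ n →
      P ({ω | m ∈ S ω} ∩ {ω | n ∈ S ω}) = P {ω | m ∈ S ω} * P {ω | n ∈ S ω})
    (hp : Antitone p) (hpP : ∀ n ∈ B, P.real {ω | n ∈ S ω} = p n)
    (hdiv : ¬ Summable (fun n : B => p n)) :
    ∀ᵐ ω ∂P, Rigid (fun n => n) (S ω) ∧ ∀ ε : ℝ, 0 < ε → ∃ T : Set ℕ, T ⊆ S ω ∧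
      LowerDense (S ω) T ε ∧ TraceUniversal (fun n => n) T := by
  classical
  have hu : Helper99.AE.HasUniv B := by
    rcases hB with rfl | rfl
    · exact Helper99.AE.hasUniv_primes
    · exact Helper99.AE.hasUniv_univ
  filter_upwards [Helper99.AE.random_sets hu hS hm hind hp hpP hdiv] with ω hω
  refine ⟨?_, fun ε hε => ?_⟩
  · obtain ⟨T, hTM, hT, hU⟩ := hω.2 (1 / 2) (by norm_num)
    exact Helper12.TR.rigid_of hTM (hT.infinite hω.1 (by norm_num))
      (Helper12.TR.trace_of_universal hU)
  · obtain ⟨T, hTM, hT, hU⟩ := hω.2 ε hε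
    exact ⟨T, hTM, hT, Helper12.TR.trace_of_universal hU⟩

end Pool.Agent.Results.MP_81910f_an.RandomPrimes
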